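import Pool.Agent.R228.BS.Main

/-!
# MP_3fc9e2_pr: non-uniqueness for the BSDE with generator `|z| sin |z|`

For every `T > 0`, every dimension `d ≥ 1` and every `d`-dimensional standard Brownian motion `B`
on a complete probability space there are a terminal value `ξ` (in `L^p` for every `p`) and two
solutions `(Y, Z)`, `(Y', Z')` of
`Y_t = ξ + ∫_t^T |Z_s| sin |Z_s| ds - ∫_t^T Z_s · dB_s`
with `Y_0 = 0`, `Y'_0 = 1` such that `|Y|^p` and `|Y'|^p` are of class (D) for every `p > 0`.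
Hence Q1 has the answer NO for every `p > 1`, every `T > 0` and every `d ≥ 1`.
-/

open MeasureTheory ProbabilityTheory Filter Topology
open scoped NNReal ENNReal

namespace Pool.Agent.Results.MP_3fc9e2_pr.Nonuniqueness

open Pool.Agent.R228.BS

theorem result {d : ℕ} (hd : 0 < d) {T : ℝ≥0} (hT : 0 < T) {Ω : Type*} [mΩ : MeasurableSpace Ω]
    (P : Measure Ω) [IsProbabilityMeasure P] [P.IsComplete] (B : ℝ≥0 → Ω → E d)
    (hB : IsBrownianVec P B) :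
    (∀ p : ℝ, 1 < p → ¬ UniqueLp P (natFilt P B hB.meas) B T p) ∧
    ∃ (ξ : Ω → ℝ) (Y : ℝ≥0 → Ω → ℝ) (Z : ℝ≥0 → Ω → E d) (Y' : ℝ≥0 → Ω → ℝ) (Z' : ℝ≥0 → Ω → E d),
      StronglyMeasurable[natFilt P B hB.meas T] ξ ∧
      IsSolution P (natFilt P B hB.meas) B T ξ Y Z ∧
      IsSolution P (natFilt P B hB.meas) B T ξ Y' Z' ∧
      (∀ ω, Y 0 ω = 0 ∧ Y' 0 ω = 1) ∧
      ∀ p : ℝ, 0 < p → MemLp ξ (ENNReal.ofReal p) P ∧
        ClassD P (natFilt P B hB.meas) T (fun t ω => |Y t ω| ^ p) ∧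
        ClassD P (natFilt P B hB.meas) T (fun t ω => |Y' t ω| ^ p) := by
  have h := main hd hT P B hB
  refine ⟨fun p hp hU => ?_, h⟩
  obtain ⟨ξ, Y, Z, Y', Z', h1, h2, h3, h4, h5⟩ := h
  obtain ⟨h6, h7, h8⟩ := h5 p (by linarith)
  have h9 := (hU ξ h1 h6 Y Z Y' Z' h2 h3 h7 h8).1
  obtain ⟨ω, hω⟩ := h9.exists
  have h10 := hω 0 (by simp)
  rw [(h4 ω).1, (h4 ω).2] at h10
  exact zero_ne_one h10

end Pool.Agent.Results.MP_3fc9e2_pr.Nonuniqueness
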